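import Pool.Agent.P.MP_1a00c7_lc.BFinal

namespace Pool.Agent.Results.MP_1a00c7_lc.Counterexample

open Pool.Agent.P.MP_1a00c7_lc

theorem result : ∃ a : ℕ → TuringDegree, WeakBubble 4 1 a ∧ ¬ Bubble 4 1 a := B.exists_weak41

end Pool.Agent.Results.MP_1a00c7_lc.Counterexample
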