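import Pool.Agent.P.MP_1a00c7_lc.Three

namespace Pool.Agent.Results.MP_1a00c7_lc.ThreeBubble

open Pool.Agent.P.MP_1a00c7_lc

theorem result : ∀ m ≥ 2, ∀ a : ℕ → TuringDegree, WeakBubble 3 m a → Bubble 3 m a :=
  fun _ hm _ h => weak_three hm h

end Pool.Agent.Results.MP_1a00c7_lc.ThreeBubble
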